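import Pool.Agent.H45.CM

open Finset MeasureTheory Pool.Agent.H45.CM

namespace Pool.Agent.Results.MP_bae362_pr.Contamination

/-- Posterior upper probability in the `ε`-contamination model. -/
noncomputable def v {E : Type} [MeasurableSpace E] (ε : ℝ) (P : Measure E) (L : E → ℝ)
    (A : Set E) : ℝ :=
  ((1 - ε) * ∫ x in A, L x ∂P + ε * sSup (L '' A)) / ((1 - ε) * ∫ x, L x ∂P + ε * sSup (L '' A))

theorem result (E : Type) [MeasurableSpace E] (P : Measure E) [IsProbabilityMeasure P]
    (ε : ℝ) (h0 : 0 < ε) (h1 : ε < 1) (L : E → ℝ) (hL : ∀ x, 0 ≤ L x) (hi : Integrable L P)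
    (hm : 0 < ∫ x, L x ∂P) (n : ℕ) (hn : 1 ≤ n) (A : Fin n → Set E)
    (hA : ∀ i, MeasurableSet (A i)) (hb : ∀ i, BddAbove (L '' A i)) :
    v ε P L (⋂ i, A i) ≤ ∑ I ∈ univ.filter (fun I : Finset (Fin n) => I.Nonempty),
      (-1 : ℝ) ^ (I.card + 1) * v ε P L (⋃ i ∈ I, A i) := by
  classical
  have : Nonempty (Fin n) := ⟨⟨0, hn⟩⟩
  have hB : ∀ I, MeasurableSet (B A I) := fun I =>
    (MeasurableSet.iInter hA).union (I.measurableSet_biUnion fun i _ => hA i)
  have hbB : ∀ I, BddAbove (L '' B A I) := fun I => by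
    induction I using Finset.induction_on with
    | empty => exact (hb ⟨0, hn⟩).mono (Set.image_mono (B_empty A ▸ Set.iInter_subset _ _))
    | insert i I _ ih => rw [B_insert, Set.image_union]; exact ih.union (hb i)
  have hM : ∀ S : Set E, 0 ≤ sSup (L '' S) := fun S =>
    Real.sSup_nonneg (by rintro _ ⟨x, -, rfl⟩; exact hL x)
  have hpos : ∀ I, 0 < (1 - ε) * ∫ x, L x ∂P + ε * sSup (L '' B A I) := fun I =>
    add_pos_of_pos_of_nonneg (mul_pos (by linarith) hm) (mul_nonneg h0.le (hM _))
  have hgoal := alternating (t := fun I => (1 - ε) * ∫ x, (B A I)ᶜ.indicator L x ∂P)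
    (u := fun I => (1 - ε) * ∫ x, L x ∂P + ε * sSup (L '' B A I))
    (v := fun I => v ε P L (B A I))
    (fun k => (CM.const (by linarith) k).mul (CM.integral P
      (fun I => hi.indicator (hB I).compl) fun x => CM.ind
        (fun I => Set.indicator_nonneg (fun y _ => hL y) x) (fun i => by
          by_cases h : x ∈ A i
          · right; intro I; simp [B_insert, h]
          · left; intro I; simp [B_insert, h, Set.indicator]) k)) hpos
    (fun k i => by
      simp only [add_sub_add_left_eq_sub, ← mul_sub]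
      exact (CM.const h0.le k).mul (CM.maxitive (g := fun I => sSup (L '' B A I))
        (b := fun i => sSup (L '' A i))
        (fun i I => by rw [B_insert, sSup_union hL (hbB I) (hb i)]) k i))
    (fun I => by
      have := hpos I
      rw [v, integral_indicator (hB I).compl]
      field_simp
      rw [← integral_add_compl (hB I) hi]; ring)
  rw [B_empty] at hgoal
  refine hgoal.trans_eq (sum_congr rfl fun I hI => ?_)
  rw [B_nonempty A (mem_filter.1 hI).2]

end Pool.Agent.Results.MP_bae362_pr.Contamination
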