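import Pool.Agent.H45.CM

open Finset MeasureTheory Pool.Agent.H45.CM

namespace Pool.Agent.Results.MP_bae362_pr.RandomSet

variable {Ω E : Type} [MeasurableSpace Ω]

/-- `sup_{x ∈ X(ω) ∩ A} L(x)` (`0` for the empty set). -/
noncomputable def sv (X : Ω → Set E) (L : E → ℝ) (A : Set E) (ω : Ω) : ℝ := sSup (L '' (X ω ∩ A))

open Classical in
/-- `inf_{x ∈ X(ω)} L(x) · 1{X(ω) ∩ A = ∅}`. -/
noncomputable def tv (X : Ω → Set E) (L : E → ℝ) (A : Set E) (ω : Ω) : ℝ :=
  if X ω ∩ A = ∅ then sInf (L '' X ω) else 0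

/-- `v_y(A) = s(A) / (s(A) + t(A))` (equal to `0` if `s(A) = t(A) = 0`). -/
noncomputable def v (μ : Measure Ω) (X : Ω → Set E) (L : E → ℝ) (A : Set E) : ℝ :=
  (∫ ω, sv X L A ω ∂μ) / ((∫ ω, sv X L A ω ∂μ) + ∫ ω, tv X L A ω ∂μ)

theorem result (Ω E : Type) [MeasurableSpace Ω] (μ : Measure Ω) [IsProbabilityMeasure μ]
    (X : Ω → Set E) (L : E → ℝ) (hL : ∀ x, 0 ≤ L x) (hX : ∀ ω, BddAbove (L '' X ω))
    (n : ℕ) (hn : 1 ≤ n) (A : Fin n → Set E)
    (h0 : Integrable (sv X L (⋂ i, A i)) μ ∧ Integrable (tv X L (⋂ i, A i)) μ)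
    (hI : ∀ I : Finset (Fin n), I.Nonempty →
      Integrable (sv X L (⋃ i ∈ I, A i)) μ ∧ Integrable (tv X L (⋃ i ∈ I, A i)) μ) :
    v μ X L (⋂ i, A i) ≤ ∑ I ∈ univ.filter (fun I : Finset (Fin n) => I.Nonempty),
      (-1 : ℝ) ^ (I.card + 1) * v μ X L (⋃ i ∈ I, A i) := by
  have : Nonempty (Fin n) := ⟨⟨0, hn⟩⟩
  have hint : ∀ I, Integrable (sv X L (B A I)) μ ∧ Integrable (tv X L (B A I)) μ := fun I => by
    rcases I.eq_empty_or_nonempty with rfl | h
    · rwa [B_empty]
    · rw [B_nonempty A h]; exact hI I h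
  have hA : ∀ i, B A {i} = A i := fun i => by simp [B_nonempty A (singleton_nonempty i)]
  have hs0 : ∀ S ω, 0 ≤ sv X L S ω := fun S ω =>
    Real.sSup_nonneg (by rintro _ ⟨x, -, rfl⟩; exact hL x)
  have hm0 : ∀ ω, 0 ≤ sInf (L '' X ω) := fun ω =>
    Real.sInf_nonneg (by rintro _ ⟨x, -, rfl⟩; exact hL x)
  have ht0 : ∀ S ω, 0 ≤ tv X L S ω := fun S ω => by
    unfold tv; split_ifs; exacts [hm0 ω, le_rfl]
  have hsu : ∀ S T ω, sv X L (S ∪ T) ω = max (sv X L S ω) (sv X L T ω) := fun S T ω => by
    rw [sv, Set.inter_union_distrib_left]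
    exact sSup_union hL ((hX ω).mono (Set.image_mono Set.inter_subset_left))
      ((hX ω).mono (Set.image_mono Set.inter_subset_left))
  have hst : ∀ S ω, sv X L S ω + tv X L S ω = max (sInf (L '' X ω)) (sv X L S ω) := fun S ω => by
    unfold tv
    split_ifs with h
    · simp [sv, h, hm0]
    · obtain ⟨x, hx⟩ := Set.nonempty_iff_ne_empty.2 h
      rw [add_zero, max_eq_right]
      exact (csInf_le ⟨0, by rintro _ ⟨x, -, rfl⟩; exact hL x⟩ (Set.mem_image_of_mem L hx.1)).trans
        (le_csSup ((hX ω).mono (Set.image_mono Set.inter_subset_left)) ⟨x, hx, rfl⟩)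
  have hgoal : v μ X L (B A ∅) ≤ ∑ I ∈ univ.filter (fun I : Finset (Fin n) => I.Nonempty),
      (-1 : ℝ) ^ (I.card + 1) * v μ X L (B A I) := by
    have hadd : ∀ I, (∫ ω, sv X L (B A I) ω ∂μ) + ∫ ω, tv X L (B A I) ω ∂μ =
        ∫ ω, (sv X L (B A I) ω + tv X L (B A I) ω) ∂μ := fun I =>
      (integral_add (hint I).1 (hint I).2).symm
    have hB : ∀ I, B A I = B A ∅ ∪ B A I := fun I => by
      rw [B_empty, B, ← Set.union_assoc, Set.union_self]
    by_cases hp : (∫ ω, sv X L (B A ∅) ω ∂μ) + ∫ ω, tv X L (B A ∅) ω ∂μ = 0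
    · have hz : ∀ I, ∫ ω, tv X L (B A I) ω ∂μ = 0 := fun I => by
        refine le_antisymm ?_ (integral_nonneg (ht0 _))
        rw [← hp, hadd]
        refine integral_mono (hint I).2 ((hint ∅).1.add (hint ∅).2) fun ω => ?_
        beta_reduce
        rw [hst]
        refine le_trans ?_ (le_max_left _ _)
        unfold tv; split_ifs; exacts [le_rfl, hm0 ω]
      refine alternating (t := fun I => 1 - v μ X L (B A I)) (u := fun _ => 1)
        (v := fun I => v μ X L (B A I)) (CM.ind (fun I => ?_) fun i => ?_) (fun _ => one_pos)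
        (fun k i => by simpa using CM.const le_rfl k) (fun I => by simp)
      · rw [v, hz, add_zero]; exact sub_nonneg.2 (div_self_le_one _)
      · by_cases hi : ∫ ω, sv X L (B A {i}) ω ∂μ = 0
        · left
          intro I
          have hae := (integral_eq_zero_iff_of_nonneg (hs0 _) (hint {i}).1).1 hi
          have : ∫ ω, sv X L (B A (insert i I)) ω ∂μ = ∫ ω, sv X L (B A I) ω ∂μ := by
            refine integral_congr_ae (hae.mono fun ω h => ?_)
            rw [hA] at h
            simp only [B_insert, hsu, h]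
            exact max_eq_left (hs0 _ _)
          simp only [v, hz, this]
        · right
          intro I
          have : ∫ ω, sv X L (B A {i}) ω ∂μ ≤ ∫ ω, sv X L (B A (insert i I)) ω ∂μ :=
            integral_mono (hint _).1 (hint _).1 fun ω => by
              simp only [B_insert, hsu, hA]; exact le_max_right _ _
          have h2 := ((integral_nonneg (hs0 _)).lt_of_ne' hi).trans_le this
          simp only [v, hz, add_zero, div_self h2.ne', sub_self]
    · have hpos : ∀ I, 0 < ∫ ω, (sv X L (B A I) ω + tv X L (B A I) ω) ∂μ := fun I => by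
        refine ((add_nonneg (integral_nonneg (hs0 _)) (integral_nonneg (ht0 _))).lt_of_ne'
          hp).trans_le ?_
        rw [hadd]
        refine integral_mono ((hint ∅).1.add (hint ∅).2) ((hint I).1.add (hint I).2) fun ω => ?_
        beta_reduce
        rw [hst, hst, hB I, hsu]
        exact max_le_max_left _ (le_max_left _ _)
      refine alternating (t := fun I => ∫ ω, tv X L (B A I) ω ∂μ)
        (u := fun I => ∫ ω, (sv X L (B A I) ω + tv X L (B A I) ω) ∂μ)
        (v := fun I => v μ X L (B A I))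
        (fun k => CM.integral μ (fun I => (hint I).2) fun ω => CM.ind (fun I => ht0 _ _)
          (fun i => ?_) k) hpos (fun k i => ?_) fun I => ?_
      · by_cases h : X ω ∩ A i = ∅
        · left; intro I; simp [tv, B_insert, Set.inter_union_distrib_left, h]
        · right; intro I; simp [tv, B_insert, Set.inter_union_distrib_left, h]
      · have hi2 : ∀ I, Integrable (fun ω => sv X L (B A I) ω + tv X L (B A I) ω) μ := fun I =>
          (hint _).1.add (hint _).2
        simp only [← integral_sub (hi2 _) (hi2 _)]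
        refine CM.integral μ (fun I => (hi2 _).sub (hi2 _))
          fun ω => CM.maxitive (g := fun I => sv X L (B A I) ω + tv X L (B A I) ω)
            (b := fun i => sv X L (A i) ω) (fun i I => ?_) k i
        rw [hst, hst, B_insert, hsu, max_assoc]
      · have := hpos I
        rw [v, hadd]
        field_simp
        rw [← hadd]; ring
  rw [B_empty] at hgoal
  refine hgoal.trans_eq (sum_congr rfl fun I hI => ?_)
  rw [B_nonempty A (mem_filter.1 hI).2]

end Pool.Agent.Results.MP_bae362_pr.RandomSet
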